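import Pool.Agent.H21.GD3

namespace Pool.Agent.Results.MP_699b34_lc.NPC

open Pool.Agent.H11.PT Pool.Agent.H21.GDDefs

theorem result (k : ℕ) (hk : 2 ≤ k) : NPComplete (GD k) :=
  ⟨H21.GD.inNP (by omega), H21.GD.hard hk⟩

end Pool.Agent.Results.MP_699b34_lc.NPC
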